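import Pool.Agent.H76.SW.CT

/-!
MP_d2582e_lc, module CSY: the atom of a single letter (helper56).
-/

namespace Pool.Agent.H56.SW

open Relation Pool.Agent.H76.SW

theorem pstep_sym (E : GrC) (l : ℕ) (x y : ℕ × ℕ) :
    PStep E (symC l).2 x y ↔ x.2 = 0 ∧ y.2 = 1 ∧ ((x.1, l), y.1) ∈ E := by
  unfold PStep symC
  constructor
  · rintro ⟨l', b, h1, h2⟩
    simp only [List.mem_singleton, Prod.mk.injEq] at h1
    obtain ⟨⟨h3, h4, h5⟩, h6⟩ := h1
    subst h4 h5
    refine ⟨h3, h6, ?_⟩
    rcases h2 with ⟨_, h⟩ | ⟨h, _⟩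
    · exact h
    · exact absurd h (by simp)
  · rintro ⟨h1, h2, h3⟩
    exact ⟨l, true, by simp [h1, h2], Or.inl ⟨rfl, h3⟩⟩

theorem pf_CSY (h1 : V_RI) : V_SY := by
  intro E l u v
  have key : ReflTransGen (PStep E (symC l).2) (u, 0) (v, 1) ↔ ((u, l), v) ∈ E := by
    constructor
    · intro h
      rcases ReflTransGen.cases_head h with h | ⟨c, hc, hr⟩
      · exact absurd (congrArg Prod.snd h) (by simp)
      · rw [pstep_sym] at hc
        obtain ⟨_, h2, h3⟩ := hc
        rcases ReflTransGen.cases_head hr with h | ⟨d, hd, _⟩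
        · rw [h] at h3
          exact h3
        · rw [pstep_sym] at hd
          exact absurd (hd.1.symm.trans h2) (by simp)
    · intro h
      refine ReflTransGen.single ?_
      rw [pstep_sym]
      exact ⟨rfl, rfl, h⟩
  rw [← key, ← h1]
  unfold AtSat
  constructor
  · rintro ⟨s, hs, s', hs', h⟩
    have h2 : s = 0 := by simpa [symC] using hs
    have h3 : s' = 1 := by simpa [symC] using hs'
    subst h2 h3
    exact h
  · intro h
    exact ⟨0, by simp [symC], 1, by simp [symC], h⟩

end Pool.Agent.H56.SW
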