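import Pool.Agent.H76.SW.T2

/-!
MP_d2582e_lc, module EL1: the size bound is at most threefold exponential (helper56).
-/

namespace Pool.Agent.H56.SW

open Pool.Agent.H76.SW

/-- at most exponential -/
def E1 (f : ℕ → ℕ) : Prop := ∃ c : ℕ, ∀ s, f s ≤ 2 ^ (c * (s + 1))

/-- at most twofold exponential -/
def E2 (f : ℕ → ℕ) : Prop := ∃ c : ℕ, ∀ s, f s ≤ 2 ^ 2 ^ (c * (s + 1))

/-- at most threefold exponential -/
def E3 (f : ℕ → ℕ) : Prop := ∃ c : ℕ, ∀ s, f s ≤ 2 ^ 2 ^ 2 ^ (c * (s + 1))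

theorem two_le_pow {a b : ℕ} (h : a ≤ b) : 2 ^ a ≤ 2 ^ b := Nat.pow_le_pow_right (by norm_num) h

theorem le_two_pow (n : ℕ) : n ≤ 2 ^ n := Nat.lt_two_pow_self.le

theorem E1.mono {f g : ℕ → ℕ} (h : ∀ s, f s ≤ g s) (hg : E1 g) : E1 f := by
  obtain ⟨c, hc⟩ := hg
  exact ⟨c, fun s => (h s).trans (hc s)⟩

theorem E2.mono {f g : ℕ → ℕ} (h : ∀ s, f s ≤ g s) (hg : E2 g) : E2 f := by
  obtain ⟨c, hc⟩ := hg
  exact ⟨c, fun s => (h s).trans (hc s)⟩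

theorem E1.const (n : ℕ) : E1 (fun _ => n) := by
  refine ⟨n, fun s => (le_two_pow n).trans (two_le_pow ?_)⟩
  nlinarith

theorem E1.id : E1 (fun s => s) := by
  refine ⟨1, fun s => (le_two_pow s).trans (two_le_pow ?_)⟩
  omega

theorem E1.two : E1 (fun s => 2 ^ s) := by
  refine ⟨1, fun s => two_le_pow ?_⟩
  omega

theorem E1.mul {f g : ℕ → ℕ} (hf : E1 f) (hg : E1 g) : E1 (fun s => f s * g s) := by
  obtain ⟨c, hc⟩ := hf
  obtain ⟨d, hd⟩ := hg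
  refine ⟨c + d, fun s => ?_⟩
  calc f s * g s ≤ 2 ^ (c * (s + 1)) * 2 ^ (d * (s + 1)) := Nat.mul_le_mul (hc s) (hd s)
    _ = 2 ^ ((c + d) * (s + 1)) := by rw [← pow_add]; ring_nf

theorem E1.add {f g : ℕ → ℕ} (hf : E1 f) (hg : E1 g) : E1 (fun s => f s + g s) := by
  obtain ⟨c, hc⟩ := hf
  obtain ⟨d, hd⟩ := hg
  refine ⟨c + d + 1, fun s => ?_⟩
  have h1 : 2 ^ (c * (s + 1)) ≤ 2 ^ ((c + d) * (s + 1)) := two_le_pow (by nlinarith)
  have h2 : 2 ^ (d * (s + 1)) ≤ 2 ^ ((c + d) * (s + 1)) := two_le_pow (by nlinarith)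
  have h3 : 2 ^ ((c + d) * (s + 1) + 1) ≤ 2 ^ ((c + d + 1) * (s + 1)) :=
    two_le_pow (by nlinarith)
  have h4 : 2 ^ ((c + d) * (s + 1) + 1) = 2 * 2 ^ ((c + d) * (s + 1)) := by rw [pow_succ]; ring
  have := hc s
  have := hd s
  show f s + g s ≤ _
  omega

theorem E1.sq {f : ℕ → ℕ} (hf : E1 f) : E1 (fun s => f s ^ 2) :=
  (hf.mul hf).mono fun s => by rw [pow_two]

theorem E1.toE2 {f : ℕ → ℕ} (hf : E1 f) : E2 f := by
  obtain ⟨c, hc⟩ := hf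
  exact ⟨c, fun s => (hc s).trans (two_le_pow (le_two_pow _))⟩

/-- the basic combination: `f ^ g` is twofold exponential -/
theorem E2.pow {f g : ℕ → ℕ} (hf : E2 f) (hg : E1 g) : E2 (fun s => f s ^ g s) := by
  obtain ⟨c, hc⟩ := hf
  obtain ⟨d, hd⟩ := hg
  refine ⟨c + d, fun s => ?_⟩
  calc f s ^ g s ≤ (2 ^ 2 ^ (c * (s + 1))) ^ g s := Nat.pow_le_pow_left (hc s) _
    _ = 2 ^ (2 ^ (c * (s + 1)) * g s) := by rw [← pow_mul]
    _ ≤ 2 ^ (2 ^ (c * (s + 1)) * 2 ^ (d * (s + 1))) := two_le_pow (Nat.mul_le_mul_left _ (hd s))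
    _ = 2 ^ 2 ^ ((c + d) * (s + 1)) := by rw [← pow_add]; ring_nf

theorem E2.const (n : ℕ) : E2 (fun _ => n) := (E1.const n).toE2

theorem E2.mul {f g : ℕ → ℕ} (hf : E2 f) (hg : E2 g) : E2 (fun s => f s * g s) := by
  obtain ⟨c, hc⟩ := hf
  obtain ⟨d, hd⟩ := hg
  have hp : E1 (fun s => 2 ^ (c * (s + 1)) + 2 ^ (d * (s + 1))) :=
    E1.add ⟨c, fun _ => le_rfl⟩ ⟨d, fun _ => le_rfl⟩
  refine ((E2.const 2).pow hp).mono fun s => ?_
  calc f s * g s ≤ 2 ^ 2 ^ (c * (s + 1)) * 2 ^ 2 ^ (d * (s + 1)) := Nat.mul_le_mul (hc s) (hd s)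
    _ = 2 ^ (2 ^ (c * (s + 1)) + 2 ^ (d * (s + 1))) := by rw [← pow_add]

theorem E2.add {f g : ℕ → ℕ} (hf : E2 f) (hg : E2 g) : E2 (fun s => f s + g s) := by
  have h : E2 (fun s => (f s + 1) * (g s + 1)) := by
    have key : ∀ f : ℕ → ℕ, E2 f → E2 (fun s => f s + 1) := by
      intro f hf
      obtain ⟨c, hc⟩ := hf
      refine ⟨c + 1, fun s => ?_⟩
      have h1 : 2 ^ (c * (s + 1)) + 1 ≤ 2 ^ ((c + 1) * (s + 1)) := by
        have h2 : 2 ^ (c * (s + 1) + 1) ≤ 2 ^ ((c + 1) * (s + 1)) := two_le_pow (by nlinarith)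
        have h3 : 1 ≤ 2 ^ (c * (s + 1)) := Nat.one_le_two_pow
        have h4 : 2 ^ (c * (s + 1) + 1) = 2 ^ (c * (s + 1)) * 2 := pow_succ _ _
        omega
      have h5 := two_le_pow h1
      have h6 : 2 ^ (2 ^ (c * (s + 1)) + 1) = 2 ^ 2 ^ (c * (s + 1)) * 2 := pow_succ _ _
      have h7 : 1 ≤ 2 ^ 2 ^ (c * (s + 1)) := Nat.one_le_two_pow
      have := hc s
      show f s + 1 ≤ _
      omega
    exact (key f hf).mul (key g hg)
  exact h.mono fun s => by nlinarith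

theorem E2.powc {f : ℕ → ℕ} (hf : E2 f) (n : ℕ) : E2 (fun s => f s ^ n) := hf.pow (E1.const n)

theorem E2.toE3 {f : ℕ → ℕ} (hf : E2 f) : E3 f := by
  obtain ⟨c, hc⟩ := hf
  exact ⟨c, fun s => (hc s).trans (two_le_pow (two_le_pow (le_two_pow _)))⟩

theorem E3.mul {f g : ℕ → ℕ} (hf : E3 f) (hg : E3 g) : E3 (fun s => f s * g s) := by
  obtain ⟨c, hc⟩ := hf
  obtain ⟨d, hd⟩ := hg
  have hp : E2 (fun s => 2 ^ 2 ^ (c * (s + 1)) + 2 ^ 2 ^ (d * (s + 1))) :=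
    E2.add ⟨c, fun _ => le_rfl⟩ ⟨d, fun _ => le_rfl⟩
  obtain ⟨e, he⟩ := hp
  refine ⟨e, fun s => ?_⟩
  calc f s * g s ≤ 2 ^ 2 ^ 2 ^ (c * (s + 1)) * 2 ^ 2 ^ 2 ^ (d * (s + 1)) :=
        Nat.mul_le_mul (hc s) (hd s)
    _ = 2 ^ (2 ^ 2 ^ (c * (s + 1)) + 2 ^ 2 ^ (d * (s + 1))) := by rw [← pow_add]
    _ ≤ 2 ^ 2 ^ 2 ^ (e * (s + 1)) := two_le_pow (he s)

theorem E3.pow2 {f : ℕ → ℕ} (hf : E2 f) : E3 (fun s => 2 ^ f s) := by
  obtain ⟨c, hc⟩ := hf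
  exact ⟨c, fun s => two_le_pow (hc s)⟩

/-! ### the constants -/

theorem e_bsz {n q w : ℕ → ℕ} (hn : E2 n) (hq : E2 q) (hw : E2 w) :
    E2 (fun s => bsz (n s) (q s) (w s)) := by
  unfold bsz
  have h1 : E2 (fun s => (n s * q s) ^ 2) := (hn.mul hq).powc 2
  exact ((hw.add hn).add (h1.add hw)).add ((h1.mul hq).add (hw.mul (E2.const 2)))

theorem e_KW : E2 (fun s => KW s) := by
  unfold KW
  have h : E1 (fun s => 2 * (2 * s) ^ 2) := (E1.const 2).mul ((E1.const 2).mul E1.id).sq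
  exact (E2.const 2).pow h

theorem e_WW : E2 (fun s => WW s) := by
  unfold WW
  have h3 : E2 (fun s => bsz 3 s 1) := e_bsz (E2.const 3) E1.id.toE2 (E2.const 1)
  have h4 : E2 (fun s => bsz 4 s 1) := e_bsz (E2.const 4) E1.id.toE2 (E2.const 1)
  exact (((E2.const 2).add h3).add h4).add (e_KW.mul ((E2.const 1).add h4))

theorem e_WN : E2 (fun s => WN s) := by
  unfold WN
  exact (E2.const 7).add ((E2.const 4).mul e_KW)

theorem e_NB (κ : ℕ) {m : ℕ → ℕ} (hm : E2 m) : E2 (fun s => NB (m s) κ s) := by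
  unfold NB
  have h : E1 (fun s => 2 * (κ * s) ^ 2) := (E1.const 2).mul ((E1.const κ).mul E1.id).sq
  exact ((E2.const 2).mul hm).mul (((E2.const κ).pow h).add (E2.const 1))

/-- a common bound for the increments -/
def DD (k q Y : ℕ) : ℕ :=
  WN q + NB (Y + 3) (k + 1) q * (k + 1) +
    (WW q + 1 + bsz (NB (Y + 3) (k + 1) q * (k + 1)) q (Y + 1))

theorem NB_mono {m m' : ℕ} (h : m ≤ m') (κ q : ℕ) : NB m κ q ≤ NB m' κ q := by
  unfold NB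
  gcongr

theorem bsz_mono {n n' w w' : ℕ} (hn : n ≤ n') (hw : w ≤ w') (q : ℕ) :
    bsz n q w ≤ bsz n' q w' := by
  unfold bsz
  gcongr

theorem SB_bound (k q Y : ℕ) : ∀ y ≤ Y, SB k q y ≤ (DD k q Y + 3) * (Y + 2) ^ y := by
  intro y
  induction y with
  | zero => intro _; simp [SB]
  | succ y ih =>
    intro hy
    have h1 := ih (by omega)
    have h2 : WW q + 1 + bsz (NB (y + 3) (k + 1) q * (k + 1)) q (y + 1) ≤ DD k q Y := by
      unfold DD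
      have h3 : NB (y + 3) (k + 1) q ≤ NB (Y + 3) (k + 1) q := NB_mono (by omega) _ _
      have h4 : bsz (NB (y + 3) (k + 1) q * (k + 1)) q (y + 1) ≤
          bsz (NB (Y + 3) (k + 1) q * (k + 1)) q (Y + 1) :=
        bsz_mono (Nat.mul_le_mul_right _ h3) (by omega) _
      omega
    have h5 : (y + 1) * SB k q y ≤ (Y + 1) * ((DD k q Y + 3) * (Y + 2) ^ y) :=
      Nat.mul_le_mul (by omega) h1
    have h6 : 1 ≤ (Y + 2) ^ y := Nat.one_le_pow _ _ (by omega)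
    have h7 : (DD k q Y + 3) * (Y + 2) ^ (y + 1) =
        (Y + 1) * ((DD k q Y + 3) * (Y + 2) ^ y) + (DD k q Y + 3) * (Y + 2) ^ y := by
      rw [pow_succ]; ring
    have h8 : (DD k q Y + 3) * 1 ≤ (DD k q Y + 3) * (Y + 2) ^ y := Nat.mul_le_mul_left _ h6
    rw [SB, h7]
    omega

theorem SN_bound (k q Y : ℕ) : ∀ y ≤ Y, SN k q y ≤ (DD k q Y + 3) * (Y + 2) ^ y := by
  intro y
  induction y with
  | zero => intro _; simp [SN]
  | succ y ih =>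
    intro hy
    have h1 := ih (by omega)
    have h2 : WN q + NB (y + 3) (k + 1) q * (k + 1) ≤ DD k q Y := by
      unfold DD
      have h3 : NB (y + 3) (k + 1) q ≤ NB (Y + 3) (k + 1) q := NB_mono (by omega) _ _
      have h4 := Nat.mul_le_mul_right (k + 1) h3
      omega
    have h5 : (y + 1) * SN k q y ≤ (Y + 1) * ((DD k q Y + 3) * (Y + 2) ^ y) :=
      Nat.mul_le_mul (by omega) h1
    have h6 : 1 ≤ (Y + 2) ^ y := Nat.one_le_pow _ _ (by omega)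
    have h7 : (DD k q Y + 3) * (Y + 2) ^ (y + 1) =
        (Y + 1) * ((DD k q Y + 3) * (Y + 2) ^ y) + (DD k q Y + 3) * (Y + 2) ^ y := by
      rw [pow_succ]; ring
    have h8 : (DD k q Y + 3) * 1 ≤ (DD k q Y + 3) * (Y + 2) ^ y := Nat.mul_le_mul_left _ h6
    rw [SN, h7]
    omega

theorem e_NBY (k t : ℕ) : E2 (fun s => NB (2 ^ s + t) (k + 1) s * (k + 1)) :=
  (e_NB (k + 1) ((E1.two.add (E1.const t)).toE2)).mul (E2.const (k + 1))

theorem e_D (k : ℕ) : E2 (fun s => (DD k s (2 ^ s) + 3) * (2 ^ s + 2) ^ 2 ^ s) := by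
  have h1 : E2 (fun s => (2 ^ s + 2) ^ 2 ^ s) := ((E1.two.add (E1.const 2)).toE2).pow E1.two
  have h2 : E2 (fun s => DD k s (2 ^ s)) := by
    unfold DD
    exact (e_WN.add (e_NBY k 3)).add ((e_WW.add (E2.const 1)).add
      (e_bsz (e_NBY k 3) E1.id.toE2 ((E1.two.add (E1.const 1)).toE2)))
  exact (h2.add (E2.const 3)).mul h1

theorem e_TN (k : ℕ) : E2 (fun s => TN k s (2 ^ s)) := by
  unfold TN
  have h : E2 (fun s => SN k s (2 ^ s)) := (e_D k).mono fun s => SN_bound k s (2 ^ s) _ le_rfl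
  exact (e_NBY k 2).add (E1.two.toE2.mul h)

theorem e_TB (k : ℕ) : E2 (fun s => TB k s (2 ^ s)) := by
  unfold TB
  have h : E2 (fun s => SB k s (2 ^ s)) := (e_D k).mono fun s => SB_bound k s (2 ^ s) _ le_rfl
  exact ((E2.const 1).add (e_bsz (e_NBY k 2) E1.id.toE2 E1.two.toE2)).add (E1.two.toE2.mul h)

theorem pf_EL1 : U_el1 := by
  intro k r
  have h1 : E3 (fun s => 2 ^ (TN k s (2 ^ s) * s) ^ 2) :=
    E3.pow2 (((e_TN k).mul E1.id.toE2).powc 2)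
  have h2 : E3 (fun s => BB k r (2 ^ s) s) := by
    unfold BB
    exact (h1.mul ((e_TN k).powc r).toE3).mul (e_TB k).toE3
  have h3 : E3 (fun s => 1 + BB k r (2 ^ s) s) := by
    obtain ⟨c, hc⟩ := (E2.const 2).toE3.mul h2
    obtain ⟨d, hd⟩ := h2
    obtain ⟨e, he⟩ := (E2.const 2).toE3.mul (⟨d, fun _ => le_rfl⟩ :
      E3 (fun s => 2 ^ 2 ^ 2 ^ (d * (s + 1))))
    refine ⟨e, fun s => ?_⟩
    have h4 := hd s
    have h5 := he s
    have h6 : 1 ≤ 2 ^ 2 ^ 2 ^ (d * (s + 1)) := Nat.one_le_two_pow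
    simp only at h4 h5
    show 1 + BB k r (2 ^ s) s ≤ _
    omega
  exact h3

end Pool.Agent.H56.SW
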