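import Pool.Agent.H76.SW.T

/-!
MP_d2582e_lc, module F4: the number of bags is bounded (helper56).
-/

namespace Pool.Agent.H56.SW

open Finset Pool.Agent.H76.SW

/-- the `d`-th ancestor -/
def up {N : Type} (par : N → Option N) (o : N) : ℕ → Option N
  | 0 => some o
  | d + 1 => (up par o d).bind par

theorem f4_path {N : Type} [Fintype N] (par : N → Option N) (rk : N → ℕ)
    (hrk : ∀ x y, par x = some y → rk y < rk x) (S : Finset N)
    (hS : ∀ x ∈ S, ∃ y, par y = some x) :
    ∀ x ∈ S, ∃ o, o ∉ S ∧ ∃ d, 1 ≤ d ∧ up par o d = some x ∧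
      ∀ j, 1 ≤ j → j ≤ d → ∃ y ∈ S, up par o j = some y := by
  have key : ∀ n : ℕ, ∀ x ∈ S, univ.sup rk - rk x ≤ n → ∃ o, o ∉ S ∧ ∃ d, 1 ≤ d ∧
      up par o d = some x ∧ ∀ j, 1 ≤ j → j ≤ d → ∃ y ∈ S, up par o j = some y := by
    intro n
    induction n with
    | zero =>
      intro x hx hn
      obtain ⟨c, hc⟩ := hS x hx
      have h1 := hrk c x hc
      have h2 : rk c ≤ univ.sup rk := le_sup (mem_univ c)
      omega
    | succ n ih =>
      intro x hx hn
      obtain ⟨c, hc⟩ := hS x hx
      have h1 := hrk c x hc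
      have h2 : rk c ≤ univ.sup rk := le_sup (mem_univ c)
      by_cases hcS : c ∈ S
      · obtain ⟨o, ho, d, hd, hup, hj⟩ := ih c hcS (by omega)
        refine ⟨o, ho, d + 1, by omega, ?_, ?_⟩
        · simp only [up, hup, Option.bind_some]
          exact hc
        · intro j hj1 hj2
          rcases Nat.lt_or_ge j (d + 1) with h | h
          · exact hj j hj1 (by omega)
          · have : j = d + 1 := by omega
            subst this
            refine ⟨x, hx, ?_⟩
            simp only [up, hup, Option.bind_some]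
            exact hc
      · refine ⟨c, hcS, 1, le_rfl, ?_, ?_⟩
        · simp only [up, Option.bind_some]
          exact hc
        · intro j hj1 hj2
          have : j = 1 := by omega
          subst this
          refine ⟨x, hx, ?_⟩
          simp only [up, Option.bind_some]
          exact hc
  intro x hx
  exact key _ x hx le_rfl

theorem pf_F4 : U_f4_bound := by
  classical
  intro N _ par rk hrk M K h1 h2 h3
  obtain ⟨ch, hch⟩ : ∃ ch : N → Finset N, ∀ x y, y ∈ ch x ↔ par y = some x :=
    ⟨fun x => univ.filter (fun y => par y = some x), fun x y => by simp⟩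
  obtain ⟨S, hS⟩ : ∃ S : Finset N, ∀ x, x ∈ S ↔ x ∉ M ∧ (ch x).card = 1 :=
    ⟨univ.filter (fun x => x ∉ M ∧ (ch x).card = 1), fun x => by simp⟩
  obtain ⟨B, hB⟩ : ∃ B : Finset N, ∀ x, x ∈ B ↔ x ∉ M ∧ 2 ≤ (ch x).card :=
    ⟨univ.filter (fun x => x ∉ M ∧ 2 ≤ (ch x).card), fun x => by simp⟩
  have hBS : Disjoint B S := by
    rw [disjoint_left]
    intro x hx hx'
    have := ((hB x).1 hx).2
    have := ((hS x).1 hx').2
    omega
  have hMBS : Disjoint M (B ∪ S) := by
    rw [disjoint_left]
    intro x hx hx'
    rcases mem_union.1 hx' with h | h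
    · exact ((hB x).1 h).1 hx
    · exact ((hS x).1 h).1 hx
  have huniv : (univ : Finset N) = M ∪ (B ∪ S) := by
    ext x
    simp only [mem_univ, mem_union, true_iff]
    by_cases hx : x ∈ M
    · exact Or.inl hx
    · right
      obtain ⟨y, hy⟩ := h1 x hx
      have hpos : 0 < (ch x).card := card_pos.2 ⟨y, (hch x y).2 hy⟩
      rcases Nat.lt_or_ge 1 (ch x).card with h | h
      · exact Or.inl ((hB x).2 ⟨hx, h⟩)
      · exact Or.inr ((hS x).2 ⟨hx, by omega⟩)
  have hcard : Fintype.card N = M.card + (B.card + S.card) := by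
    rw [← card_univ, huniv, card_union_of_disjoint hMBS, card_union_of_disjoint hBS]
  have hsum : ∑ x, (ch x).card ≤ Fintype.card N := by
    rw [← card_biUnion (s := univ) (t := ch)]
    · exact card_le_univ _
    · intro x _ y _ hxy
      show Disjoint (ch x) (ch y)
      rw [disjoint_left]
      intro z hz hz'
      have h4 := (hch x z).1 hz
      have h5 := (hch y z).1 hz'
      exact hxy (Option.some_injective _ (h4.symm.trans h5))
  have hsum2 : 2 * B.card + S.card ≤ ∑ x, (ch x).card := by
    calc 2 * B.card + S.card = ∑ x ∈ B, 2 + ∑ x ∈ S, 1 := by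
          rw [sum_const, sum_const, smul_eq_mul, smul_eq_mul, mul_one, mul_comm]
      _ ≤ ∑ x ∈ B, (ch x).card + ∑ x ∈ S, (ch x).card :=
          Nat.add_le_add (sum_le_sum fun x hx => ((hB x).1 hx).2)
            (sum_le_sum fun x hx => (((hS x).1 hx).2).ge)
      _ = ∑ x ∈ B ∪ S, (ch x).card := (sum_union hBS).symm
      _ ≤ ∑ x, (ch x).card := sum_le_sum_of_subset (subset_univ _)
  have hBM : B.card ≤ M.card := by omega
  -- the elements of `S`
  have hSch : ∀ x ∈ S, ∃ y, par y = some x := fun x hx => h1 x ((hS x).1 hx).1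
  have honly : ∀ x ∈ S, ∀ y y', par y = some x → par y' = some x → y = y' := by
    intro x hx y y' hy hy'
    obtain ⟨c, hc⟩ := card_eq_one.1 ((hS x).1 hx).2
    have h4 : y ∈ ch x := (hch x y).2 hy
    have h5 : y' ∈ ch x := (hch x y').2 hy'
    rw [hc, mem_singleton] at h4 h5
    rw [h4, h5]
  have hpath := f4_path par rk hrk S hSch
  have hK : ∀ x ∈ S, ∃ o, o ∈ M ∪ B ∧ ∃ d, d ∈ Finset.Icc 1 K ∧ up par o d = some x := by
    intro x hx
    obtain ⟨o, ho, d, hd, hup, hj⟩ := hpath x hx
    refine ⟨o, ?_, d, mem_Icc.2 ⟨hd, ?_⟩, hup⟩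
    · have : o ∈ M ∪ (B ∪ S) := by rw [← huniv]; exact mem_univ o
      simp only [mem_union] at this ⊢
      tauto
    · -- the chain
      have hroot : ∃ px, par x = some px := by
        by_contra hcon
        have hn : par x = none := by
          cases hpx : par x with
          | none => rfl
          | some v => exact absurd ⟨v, hpx⟩ hcon
        obtain ⟨c, hc⟩ := hSch x hx
        refine h2 x ((hS x).1 hx).1 hn c fun y => ⟨fun hy => honly x hx y c hy hc, ?_⟩
        rintro rfl
        exact hc
      obtain ⟨px, hpx⟩ := hroot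
      obtain ⟨z, hz0, hz⟩ : ∃ z : ℕ → N, z 0 = px ∧ ∀ i, 1 ≤ i → i ≤ d + 1 →
          up par o (d + 1 - i) = some (z i) := by
        refine ⟨fun i => if i = 0 then px else (up par o (d + 1 - i)).getD o, by simp, ?_⟩
        intro i hi1 hi2
        have hi0 : i ≠ 0 := by omega
        simp only [hi0, if_false]
        rcases Nat.lt_or_ge i (d + 1) with h | h
        · obtain ⟨y, _, hy⟩ := hj (d + 1 - i) (by omega) (by omega)
          rw [hy]
          rfl
        · have : d + 1 - i = 0 := by omega
          rw [this]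
          rfl
      have hz1 : z 1 = x := by
        have := hz 1 le_rfl (by omega)
        rw [show d + 1 - 1 = d by omega, hup] at this
        exact (Option.some_injective _ this).symm
      have hzS : ∀ i, 1 ≤ i → i ≤ d → z i ∈ S := by
        intro i hi1 hi2
        obtain ⟨y, hyS, hy⟩ := hj (d + 1 - i) (by omega) (by omega)
        have := hz i hi1 (by omega)
        rw [hy] at this
        rw [← Option.some_injective _ this]
        exact hyS
      have hstep : ∀ i ≤ d, par (z (i + 1)) = some (z i) := by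
        intro i hi
        rcases Nat.eq_zero_or_pos i with h0 | h0
        · subst h0
          rw [hz0, zero_add, hz1]
          exact hpx
        · have h4 := hz i h0 (by omega)
          have h5 := hz (i + 1) (by omega) (by omega)
          rw [show d + 1 - i = (d + 1 - (i + 1)) + 1 by omega, up, h5, Option.bind_some] at h4
          exact h4
      refine h3 d z hstep (fun i hi1 hi2 => ((hS _).1 (hzS i hi1 hi2)).1) ?_
      intro i hi1 hi2 y hy
      exact honly (z i) (hzS i hi1 hi2) y (z (i + 1)) hy (hstep i hi2)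
  have hScard : S.card ≤ (M ∪ B).card * K := by
    have h4 : S ⊆ ((M ∪ B) ×ˢ Finset.Icc 1 K).image
        (fun q => (up par q.1 q.2).getD q.1) := by
      intro x hx
      obtain ⟨o, ho, d, hd, hup⟩ := hK x hx
      exact mem_image.2 ⟨(o, d), mem_product.2 ⟨ho, hd⟩, by simp [hup]⟩
    calc S.card ≤ _ := card_le_card h4
      _ ≤ ((M ∪ B) ×ˢ Finset.Icc 1 K).card := card_image_le
      _ = (M ∪ B).card * K := by rw [card_product, Nat.card_Icc]; simp
  have hMB : (M ∪ B).card ≤ 2 * M.card := (card_union_le _ _).trans (by omega)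
  have h5 : (M ∪ B).card * K ≤ 2 * M.card * K := Nat.mul_le_mul_right _ hMB
  rw [hcard]
  calc M.card + (B.card + S.card) ≤ M.card + (M.card + 2 * M.card * K) := by omega
    _ = 2 * M.card * (K + 1) := by ring

end Pool.Agent.H56.SW
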