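import Pool.Agent.H76.SW.T

/-!
MP_d2582e_lc, module P1: the bounds are primitive recursive (helper56).
-/

namespace Pool.Agent.H56.SW

open Pool.Agent.H76.SW

section
variable {α : Type} [Primcodable α] {f g h : α → ℕ}

theorem pAdd (hf : Primrec f) (hg : Primrec g) : Primrec (fun a => f a + g a) :=
  Primrec.nat_add.comp hf hg

theorem pMul (hf : Primrec f) (hg : Primrec g) : Primrec (fun a => f a * g a) :=
  Primrec.nat_mul.comp hf hg

theorem pPow (hf : Primrec f) (hg : Primrec g) : Primrec (fun a => f a ^ g a) :=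
  (Primrec₂.unpaired'.1 Nat.Primrec.pow).comp hf hg

theorem pC (n : ℕ) : Primrec (fun _ : α => n) := Primrec.const n

theorem pBsz (hf : Primrec f) (hg : Primrec g) (hh : Primrec h) :
    Primrec (fun a => bsz (f a) (g a) (h a)) := by
  unfold bsz
  have h1 : Primrec (fun a => (f a * g a) ^ 2) := pPow (pMul hf hg) (pC 2)
  exact pAdd (pAdd (pAdd hh hf) (pAdd h1 hh)) (pAdd (pMul h1 hg) (pMul hh (pC 2)))

theorem pKW (hf : Primrec f) : Primrec (fun a => KW (f a)) := by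
  unfold KW
  exact pPow (pC 2) (pMul (pC 2) (pPow (pMul (pC 2) hf) (pC 2)))

theorem pWW (hf : Primrec f) : Primrec (fun a => WW (f a)) := by
  unfold WW
  exact pAdd (pAdd (pAdd (pC 2) (pBsz (pC 3) hf (pC 1))) (pBsz (pC 4) hf (pC 1)))
    (pMul (pKW hf) (pAdd (pC 1) (pBsz (pC 4) hf (pC 1))))

theorem pWN (hf : Primrec f) : Primrec (fun a => WN (f a)) := by
  unfold WN
  exact pAdd (pC 7) (pMul (pC 4) (pKW hf))

theorem pNB (κ : ℕ) (hf : Primrec f) (hg : Primrec g) :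
    Primrec (fun a => NB (f a) κ (g a)) := by
  unfold NB
  exact pMul (pMul (pC 2) hf) (pAdd (pPow (pC κ)
    (pMul (pC 2) (pPow (pMul (pC κ) hg) (pC 2)))) (pC 1))

end

theorem SB_rec (k q y : ℕ) : SB k q y = Nat.rec (motive := fun _ => ℕ) 3
    (fun y ih => WW q + 1 + bsz (NB (y + 3) (k + 1) q * (k + 1)) q (y + 1) + (y + 1) * ih) y := by
  induction y with
  | zero => rfl
  | succ y ih => rw [SB, ih]

theorem SN_rec (k q y : ℕ) : SN k q y = Nat.rec (motive := fun _ => ℕ) 2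
    (fun y ih => WN q + NB (y + 3) (k + 1) q * (k + 1) + (y + 1) * ih) y := by
  induction y with
  | zero => rfl
  | succ y ih => rw [SN, ih]

theorem pSB (k : ℕ) {f g : ℕ → ℕ} (hf : Primrec f) (hg : Primrec g) :
    Primrec (fun s => SB k (f s) (g s)) := by
  have hstep : Primrec₂ (fun (s : ℕ) (p : ℕ × ℕ) => WW (f s) + 1 +
      bsz (NB (p.1 + 3) (k + 1) (f s) * (k + 1)) (f s) (p.1 + 1) + (p.1 + 1) * p.2) := by
    have hs : Primrec (fun x : ℕ × (ℕ × ℕ) => f x.1) := hf.comp Primrec.fst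
    have h1 : Primrec (fun x : ℕ × (ℕ × ℕ) => x.2.1) := Primrec.fst.comp Primrec.snd
    have h2 : Primrec (fun x : ℕ × (ℕ × ℕ) => x.2.2) := Primrec.snd.comp Primrec.snd
    exact pAdd (pAdd (pAdd (pWW hs) (pC 1))
      (pBsz (pMul (pNB (k + 1) (pAdd h1 (pC 3)) hs) (pC (k + 1))) hs (pAdd h1 (pC 1))))
      (pMul (pAdd h1 (pC 1)) h2)
  exact (Primrec.nat_rec' hg (pC 3) hstep).of_eq fun s => (SB_rec k (f s) (g s)).symm

theorem pSN (k : ℕ) {f g : ℕ → ℕ} (hf : Primrec f) (hg : Primrec g) :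
    Primrec (fun s => SN k (f s) (g s)) := by
  have hstep : Primrec₂ (fun (s : ℕ) (p : ℕ × ℕ) => WN (f s) +
      NB (p.1 + 3) (k + 1) (f s) * (k + 1) + (p.1 + 1) * p.2) := by
    have hs : Primrec (fun x : ℕ × (ℕ × ℕ) => f x.1) := hf.comp Primrec.fst
    have h1 : Primrec (fun x : ℕ × (ℕ × ℕ) => x.2.1) := Primrec.fst.comp Primrec.snd
    have h2 : Primrec (fun x : ℕ × (ℕ × ℕ) => x.2.2) := Primrec.snd.comp Primrec.snd
    exact pAdd (pAdd (pWN hs) (pMul (pNB (k + 1) (pAdd h1 (pC 3)) hs) (pC (k + 1))))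
      (pMul (pAdd h1 (pC 1)) h2)
  exact (Primrec.nat_rec' hg (pC 2) hstep).of_eq fun s => (SN_rec k (f s) (g s)).symm

theorem pSM {f g u v : ℕ → ℕ} (hf : Primrec f) (hg : Primrec g) (hu : Primrec u)
    (hv : Primrec v) : Primrec (fun s => SM (f s) (g s) (u s) (v s)) := by
  unfold SM KT
  exact pAdd hf (pMul (pPow (pMul hf hg) (pC 2)) (pAdd (pMul hg (pPow (pC 2) (pPow (pC 2)
    (pPow (pMul (pAdd hu (pC 2)) hv) (pC 2))))) (pC 1)))

theorem pf_P1 : U_p1_prim := by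
  intro k r
  have hid : Primrec (fun s : ℕ => s) := Primrec.id
  have h2 : Primrec (fun s : ℕ => 2 ^ s) := pPow (pC 2) hid
  constructor
  · have hTN : Primrec (fun s => TN k s (2 ^ s)) := by
      unfold TN
      exact pAdd (pMul (pNB (k + 1) (pAdd h2 (pC 2)) hid) (pC (k + 1)))
        (pMul h2 (pSN k hid h2))
    have hTB : Primrec (fun s => TB k s (2 ^ s)) := by
      unfold TB
      exact pAdd (pAdd (pC 1) (pBsz (pMul (pNB (k + 1) (pAdd h2 (pC 2)) hid) (pC (k + 1)))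
        hid h2)) (pMul h2 (pSB k hid h2))
    unfold BB
    exact pAdd (pC 1) (pMul (pMul (pPow (pC 2) (pPow (pMul hTN hid) (pC 2)))
      (pPow hTN (pC r))) hTB)
  · intro B hB
    have h2B : Primrec (fun s : ℕ => 2 ^ B s) := pPow (pC 2) hB
    exact pAdd (pSM h2 hid h2B hB) (pSM h2B hB h2 hid)

end Pool.Agent.H56.SW
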