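import Pool.Agent.H76.SW.T

/-!
MP_d2582e_lc, module S10: reachability between the variables of a torso (helper56).
-/

namespace Pool.Agent.H56.SW

open Relation Pool.Agent.H76.SW

theorem rstep_lab {A P Q : Type} {gs : P → Option (A × Bool) → P → Prop}
    {tr : Q → A × Bool → Q → Prop} {z z' : P × Q} (h : rstep gs tr z z') :
    ∃ l, gs z.1 l z'.1 := by
  rcases h with ⟨h, _⟩ | ⟨l, h, _⟩
  · exact ⟨none, h⟩
  · exact ⟨some l, h⟩

/-- The invariant of the walk. -/
def Inv10 {A P Q : Type} (gs : P → Option (A × Bool) → P → Prop)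
    (tr : Q → A × Bool → Q → Prop) {n m : ℕ}
    (src tgt : Fin m → Fin n) (ch : Fin m → Term A) (p q : Fin n)
    (ι : (Term.node n m src tgt ch p q).Pos → P) (x0 : Fin n × Q) (z : P × Q) : Prop :=
  (∃ w : Fin n, z.1 = ι (Sum.inl w) ∧
    ReflTransGen (TStep src tgt (rho gs tr) (fun v => ι (Sum.inl v)) p q) x0 (w, z.2)) ∨
  (∃ i, ∃ x : (ch i).Pos, z.1 = ι (Sum.inr ⟨i, x⟩) ∧ ∃ (w : Fin n) (s1 : Q),
    ReflTransGen (TStep src tgt (rho gs tr) (fun v => ι (Sum.inl v)) p q) x0 (w, s1) ∧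
    (w = src i ∨ w = tgt i) ∧ rho gs tr (ι (Sum.inl w), s1) z) ∨
  (z.1 ∉ Set.range ι ∧ ∃ (w : Fin n) (s1 : Q),
    ReflTransGen (TStep src tgt (rho gs tr) (fun v => ι (Sum.inl v)) p q) x0 (w, s1) ∧
    (w = p ∨ w = q) ∧ rho gs tr (ι (Sum.inl w), s1) z)

theorem inv10_step {A P Q : Type} (gs : P → Option (A × Bool) → P → Prop) (hs : Symm gs)
    (tr : Q → A × Bool → Q → Prop) {n m : ℕ}
    {src tgt : Fin m → Fin n} {ch : Fin m → Term A} {p q : Fin n}
    {ι : (Term.node n m src tgt ch p q).Pos → P}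
    (h : Occ gs (Term.node n m src tgt ch p q) ι) (x0 : Fin n × Q) (z z' : P × Q)
    (hz : Inv10 gs tr src tgt ch p q ι x0 z) (hzz : rstep gs tr z z') :
    Inv10 gs tr src tgt ch p q ι x0 z' := by
  obtain ⟨l, hl⟩ := rstep_lab hzz
  rcases hz with ⟨w, hw, hr⟩ | ⟨i, x, hx, w, s1, hr, hwi, hrho⟩ | ⟨hnr, w, s1, hr, hwp, hrho⟩
  · -- from a variable
    have hz1 : (ι (Sum.inl w), z.2) = z := by rw [← hw]
    have hsing : rho gs tr (ι (Sum.inl w), z.2) z' := by
      rw [hz1]
      exact ReflTransGen.single hzz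
    rw [hw] at hl
    rcases h.out (Sum.inl w) l z'.1 hl with ⟨y', hy', hst⟩ | ⟨⟨d, hd⟩, hnr⟩
    · simp only [Term.stp] at hst
      rcases hst with ⟨i, x', y'', hx', _, _⟩ | ⟨_, i, b, ⟨h1, h2⟩ | ⟨h1, h2⟩⟩
      · exact absurd hx' (by simp)
      · refine Or.inr (Or.inl ⟨i, (ch i).pt b, ?_, w, z.2, hr, ?_, hsing⟩)
        · rw [← hy', h2]
        · have h3 : w = if b then tgt i else src i := Sum.inl_injective h1
          cases b
          · left; simpa using h3
          · right; simpa using h3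
      · exact absurd h2 (by simp)
    · refine Or.inr (Or.inr ⟨hnr, w, z.2, hr, ?_, hsing⟩)
      simp only [Term.pt] at hd
      have h3 : w = if d then q else p := Sum.inl_injective hd
      cases d
      · left; simpa using h3
      · right; simpa using h3
  · -- from inside a child
    have hext : rho gs tr (ι (Sum.inl w), s1) z' := hrho.tail hzz
    rw [hx] at hl
    rcases h.out (Sum.inr ⟨i, x⟩) l z'.1 hl with ⟨y', hy', hst⟩ | ⟨⟨d, hd⟩, _⟩
    · simp only [Term.stp] at hst
      rcases hst with ⟨i', x', y'', hx', hy2, _⟩ | ⟨_, i', b, ⟨h1, _⟩ | ⟨h1, h2⟩⟩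
      · have h3 : (⟨i, x⟩ : Σ i : Fin m, (ch i).Pos) = ⟨i', x'⟩ := Sum.inr_injective hx'
        have h4 : i = i' := congrArg Sigma.fst h3
        subst h4
        refine Or.inr (Or.inl ⟨i, y'', ?_, w, s1, hr, hwi, hext⟩)
        rw [← hy', hy2]
      · exact absurd h1 (by simp)
      · have h3 : (⟨i, x⟩ : Σ i : Fin m, (ch i).Pos) = ⟨i', (ch i').pt b⟩ := Sum.inr_injective h2
        have h4 : i = i' := congrArg Sigma.fst h3
        subst h4
        have hz' : z'.1 = ι (Sum.inl (if b then tgt i else src i)) := by rw [← hy', h1]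
        refine Or.inl ⟨if b then tgt i else src i, hz', hr.tail ⟨?_, Or.inr (Or.inl ⟨i, hwi, ?_⟩)⟩⟩
        · have : (ι (Sum.inl (if b then tgt i else src i)), z'.2) = z' := by rw [← hz']
          simp only
          rw [this]
          exact hext
        · cases b <;> simp
    · exact absurd hd (by simp [Term.pt])
  · -- from outside
    have hext : rho gs tr (ι (Sum.inl w), s1) z' := hrho.tail hzz
    by_cases hin : z'.1 ∈ Set.range ι
    · obtain ⟨y', hy'⟩ := hin
      have hl' := hs _ _ _ hl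
      rw [← hy'] at hl'
      rcases h.out y' (inv l) z.1 hl' with ⟨y2, hy2, _⟩ | ⟨⟨d, hd⟩, _⟩
      · exact absurd ⟨y2, hy2⟩ hnr
      · have hd' : y' = Sum.inl (if d then q else p) := by simpa [Term.pt] using hd
        have hz' : z'.1 = ι (Sum.inl (if d then q else p)) := by rw [← hy', hd']
        refine Or.inl ⟨if d then q else p, hz', hr.tail ⟨?_, Or.inr (Or.inr ⟨hwp, ?_⟩)⟩⟩
        · have : (ι (Sum.inl (if d then q else p)), z'.2) = z' := by rw [← hz']
          simp only
          rw [this]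
          exact hext
        · cases d <;> simp
    · exact Or.inr (Or.inr ⟨hin, w, s1, hr, hwp, hext⟩)

theorem pf_S10 : U_s10_torso := by
  intro A P Q gs hs tr n m src tgt ch p q ι h v v' s s' hr
  have key : ∀ z, rho gs tr (ι (Sum.inl v), s) z → Inv10 gs tr src tgt ch p q ι (v, s) z := by
    intro z hz
    induction hz with
    | refl => exact Or.inl ⟨v, rfl, ReflTransGen.refl⟩
    | tail _ hbc ih => exact inv10_step gs hs tr h (v, s) _ _ ih hbc
  rcases key _ hr with ⟨w, hw, h1⟩ | ⟨i, x, hx, _⟩ | ⟨hn, _⟩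
  · have h2 : v' = w := Sum.inl_injective (h.inj hw)
    rw [h2]
    exact h1
  · exact absurd (h.inj hx) (by simp)
  · exact absurd ⟨_, rfl⟩ hn

end Pool.Agent.H56.SW
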