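import Pool.Agent.H76.SW.T

/-!
MP_d2582e_lc, module S4: children of an occurrence are occurrences (helper56).
-/

namespace Pool.Agent.H56.SW

open Relation Pool.Agent.H76.SW

theorem pf_S4 : U_s4_child := by
  intro A P gs n m src tgt ch p q ι h i
  refine ⟨?_, ?_, ?_⟩
  · intro x y hxy
    have h1 := Sum.inr_injective (h.inj hxy)
    exact eq_of_heq (Sigma.mk.inj h1).2
  · intro x l y hst
    refine h.step _ _ _ ?_
    simp only [Term.stp]
    exact Or.inl ⟨i, x, y, rfl, rfl, hst⟩
  · intro x l y hg
    rcases h.out (Sum.inr ⟨i, x⟩) l y hg with ⟨y', hy', hst⟩ | ⟨⟨d, hd⟩, _⟩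
    · simp only [Term.stp] at hst
      rcases hst with ⟨i', x', y'', hx', hy2, hs⟩ | ⟨_, i', b, ⟨h1, _⟩ | ⟨h1, h2⟩⟩
      · left
        have h3 := Sum.inr_injective hx'
        have h4 : i = i' := (Sigma.mk.inj h3).1
        subst h4
        have h5 : x = x' := eq_of_heq (Sigma.mk.inj h3).2
        subst h5
        exact ⟨y'', by rw [← hy', hy2], hs⟩
      · exact absurd h1 (by simp)
      · right
        have h3 := Sum.inr_injective h2
        have h4 : i = i' := (Sigma.mk.inj h3).1
        subst h4
        have h5 : x = (ch i).pt b := eq_of_heq (Sigma.mk.inj h3).2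
        refine ⟨⟨b, h5⟩, ?_⟩
        rintro ⟨w, hw⟩
        simp only at hw
        rw [← hy', h1] at hw
        exact absurd (h.inj hw) (by simp)
    · exact absurd hd (by simp [Term.pt])

end Pool.Agent.H56.SW
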