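import Pool.Agent.H76.SW.T

/-!
MP_d2582e_lc, module S9: walks leave an occurrence through a port (helper56).
-/

namespace Pool.Agent.H56.SW

open Relation Pool.Agent.H76.SW

theorem rstep_label {A P Q : Type} {gs : P → Option (A × Bool) → P → Prop}
    {tr : Q → A × Bool → Q → Prop} {z z' : P × Q} (h : rstep gs tr z z') :
    ∃ l, gs z.1 l z'.1 := by
  rcases h with ⟨h, _⟩ | ⟨l, h, _⟩
  · exact ⟨none, h⟩
  · exact ⟨some l, h⟩

theorem exit_aux {A P Q : Type} (gs : P → Option (A × Bool) → P → Prop)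
    (tr : Q → A × Bool → Q → Prop) (T : Term A) (ι : T.Pos → P) (h : Occ gs T ι)
    (x0 : P × Q) (hx : x0.1 ∈ Set.range ι) (z : P × Q) (hr : rho gs tr x0 z) :
    z.1 ∈ Set.range ι ∨ ∃ a s1, rho gs tr x0 (ι (T.pt a), s1) ∧ rho gs tr (ι (T.pt a), s1) z := by
  induction hr with
  | refl => exact Or.inl hx
  | tail hab hbc ih =>
    rename_i b c
    rcases ih with ⟨w, hw⟩ | ⟨a, s1, h1, h2⟩
    · obtain ⟨l, hl⟩ := rstep_label hbc
      rw [← hw] at hl
      rcases h.out w l c.1 hl with ⟨y', hy', _⟩ | ⟨⟨d, hd⟩, _⟩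
      · exact Or.inl ⟨y', hy'⟩
      · refine Or.inr ⟨d, b.2, ?_, ?_⟩
        · have : (ι (T.pt d), b.2) = b := by
            rw [← hd, hw]
          rw [this]
          exact hab
        · have : (ι (T.pt d), b.2) = b := by
            rw [← hd, hw]
          rw [this]
          exact ReflTransGen.single hbc
    · exact Or.inr ⟨a, s1, h1, h2.tail hbc⟩

theorem entry_aux {A P Q : Type} (gs : P → Option (A × Bool) → P → Prop) (hs : Symm gs)
    (tr : Q → A × Bool → Q → Prop) (T : Term A) (ι : T.Pos → P) (h : Occ gs T ι)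
    (y0 : P × Q) (hy : y0.1 ∉ Set.range ι) (z : P × Q) (hr : rho gs tr y0 z) :
    z.1 ∉ Set.range ι ∨ ∃ a s1, rho gs tr y0 (ι (T.pt a), s1) ∧ rho gs tr (ι (T.pt a), s1) z := by
  induction hr with
  | refl => exact Or.inl hy
  | tail hab hbc ih =>
    rename_i b c
    rcases ih with hb | ⟨a, s1, h1, h2⟩
    · by_cases hc : c.1 ∈ Set.range ι
      · obtain ⟨w, hw⟩ := hc
        obtain ⟨l, hl⟩ := rstep_label hbc
        have hl' := hs _ _ _ hl
        rw [← hw] at hl'
        rcases h.out w (inv l) b.1 hl' with ⟨y', hy', _⟩ | ⟨⟨d, hd⟩, _⟩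
        · exact absurd ⟨y', hy'⟩ hb
        · have : (ι (T.pt d), c.2) = c := by
            rw [← hd, hw]
          refine Or.inr ⟨d, c.2, ?_, ?_⟩
          · rw [this]
            exact hab.tail hbc
          · rw [this]
            exact ReflTransGen.refl
      · exact Or.inl hc
    · exact Or.inr ⟨a, s1, h1, h2.tail hbc⟩

theorem pf_S9 : U_s9_exit := by
  intro A P Q gs hs tr T ι h x y hx hy
  refine ⟨fun s s' hr => ?_, fun s s' hr => ?_⟩
  · rcases exit_aux gs tr T ι h (x, s) hx (y, s') hr with h1 | h1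
    · exact absurd h1 hy
    · exact h1
  · rcases entry_aux gs hs tr T ι h (y, s) hy (x, s') hr with h1 | h1
    · exact absurd hx h1
    · exact h1

end Pool.Agent.H56.SW
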