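import Pool.Agent.H76.SW.T

/-!
The top level: module T1.
-/

namespace Pool.Agent.H56.SW

open Relation Pool.Agent.H76.SW

theorem bszT_mono (n q : ℕ) {w w' : ℕ} (h : w ≤ w') : bsz n q w ≤ bsz n q w' := by
  unfold bsz
  omega

theorem SB_mono (k q : ℕ) : Monotone (SB k q) := by
  refine monotone_nat_of_le_succ fun y => ?_
  rw [SB]
  calc SB k q y ≤ (y + 1) * SB k q y := Nat.le_mul_of_pos_left _ (Nat.succ_pos y)
    _ ≤ _ := Nat.le_add_left _ _

theorem SN_mono (k q : ℕ) : Monotone (SN k q) := by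
  refine monotone_nat_of_le_succ fun y => ?_
  rw [SN]
  calc SN k q y ≤ (y + 1) * SN k q y := Nat.le_mul_of_pos_left _ (Nat.succ_pos y)
    _ ≤ _ := Nat.le_add_left _ _

theorem pf_T1 (h1 : U_s1_symm) (h2 : U_s3_id) (h3 : U_s4_child) (h4 : U_s5_lift)
    (h5 : U_a0_mono) (h6 : U_a1_flat) (h7 : U_a5_main) (h8 : U_q5_unfold) : U_t1_top := by
  classical
  intro A Q _ k hk tr n m r src tgt ch p hwr hw hch out L _ o μ hμ N hN
  have hsym : Symm (Term.node n m src tgt ch p p).stp := h1 _
  have hocc : Occ (Term.node n m src tgt ch p p).stp (Term.node n m src tgt ch p p) id := h2 _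
  -- labels
  have hlab : ∀ a : L, ∃ x : (Term.node n m src tgt ch p p).Pos,
      cl (Term.node n m src tgt ch p p).stp x = μ a ∧
        ((∃ j, a = o j) → ∃ v : Fin n, x = Sum.inl v) := by
    intro a
    by_cases h : ∃ j, a = o j
    · obtain ⟨j, rfl⟩ := h
      exact ⟨Sum.inl (out j), (hμ j).symm, fun _ => ⟨_, rfl⟩⟩
    · obtain ⟨x, hx⟩ := Quot.exists_rep (μ a)
      exact ⟨x, hx, fun h' => absurd h' h⟩
  choose lab hl1 hl2 using hlab
  -- queries for the children
  have hchild : ∀ i, (∃ a x, lab a = Sum.inr ⟨i, x⟩) →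
      ∃ δ : RQ A, Good (Term.node n m src tgt ch p p).stp tr k
        (SB k (Fintype.card Q) (Fintype.card L)) (SN k (Fintype.card Q) (Fintype.card L))
        (fun a : {a : L // ∃ x, lab a = Sum.inr ⟨i, x⟩} => id (lab a.1))
        (fun b => id (Sum.inr ⟨i, (ch i).pt b⟩)) δ := by
    intro i _
    have hoc := h3 (Term.node n m src tgt ch p p).stp hocc i
    obtain ⟨δ, hδ⟩ := h7 k hk (Term.node n m src tgt ch p p).stp hsym tr hwr
      {a : L // ∃ x, lab a = Sum.inr ⟨i, x⟩} (ch i) (hch i) _ hoc (fun a => a.2.choose)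
    refine ⟨δ, ?_⟩
    have hcard : Fintype.card {a : L // ∃ x, lab a = Sum.inr ⟨i, x⟩} ≤ Fintype.card L :=
      Fintype.card_subtype_le _
    have hg := h5 (Term.node n m src tgt ch p p).stp tr k _ _ _ _
      (SB_mono k (Fintype.card Q) hcard) (SN_mono k (Fintype.card Q) hcard) _ _ δ hδ
    have he : (fun a : {a : L // ∃ x, lab a = Sum.inr ⟨i, x⟩} =>
        (id (Sum.inr ⟨i, a.2.choose⟩) : (Term.node n m src tgt ch p p).Pos)) =
        fun a => id (lab a.1) := by
      funext a
      exact a.2.choose_spec.symm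
    rw [he] at hg
    exact hg
  obtain ⟨w, b, sub, Fb, l1, l2, pv, lv, hw1, hsz, hn, htw, hsim, hsub, hform, hpq, hcan, hmain⟩ :=
    h6 k (Term.node n m src tgt ch p p).stp hsym tr hw hocc L lab _ _ hchild
  have hpv : pv false = pv true := hpq rfl
  have hb0 : 0 < b.n := lt_of_le_of_lt (Nat.zero_le _) (pv false).2
  refine ⟨⟨w, b, sub, fun j => lv (o j)⟩, hb0, ⟨htw, fun j => (hsub j).1⟩,
    ⟨hsim, fun j => (hsub j).2.1⟩, ?_, ?_, ?_, ?_⟩
  · -- size
    change 1 + b.size + ∑ j, (sub j).size ≤ _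
    have hs1 : ∑ j, (sub j).size ≤ Fintype.card L * SB k (Fintype.card Q) (Fintype.card L) := by
      calc ∑ j, (sub j).size ≤ ∑ _j : Fin w, SB k (Fintype.card Q) (Fintype.card L) :=
            Finset.sum_le_sum fun j _ => (hsub j).2.2.1
        _ = w * SB k (Fintype.card Q) (Fintype.card L) := by simp
        _ ≤ _ := Nat.mul_le_mul_right _ hw1
    have hs2 := hsz.trans (bszT_mono (NB (Fintype.card L + 2) (k + 1) (Fintype.card Q) * (k + 1))
      (Fintype.card Q) hw1)
    unfold TB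
    omega
  · -- fact query
    have hN' : b.n + w * SN k (Fintype.card Q) (Fintype.card L) ≤ N := by
      have := Nat.mul_le_mul_right (SN k (Fintype.card Q) (Fintype.card L)) hw1
      unfold TN at hN
      omega
    exact (h8 tr b Fb l1 l2 hform sub _ (fun j => (hsub j).2.2.2) N hN').2 r
      (fun j => lv (o j)) hb0
  · -- the canonical database
    obtain ⟨μ0, hh, hp0, hl0⟩ := hcan
    refine ⟨μ0, hh, fun j => ?_⟩
    obtain ⟨v, hv⟩ := hl2 (o j) ⟨j, rfl⟩
    have h9 := hl0 (o j) v hv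
    have e := (hl1 (o j)).trans (hμ j)
    rw [hv] at e
    exact h9.trans e
  · -- main
    rintro V E z ⟨μ', hh, hz⟩
    obtain ⟨g1, g2⟩ := hmain V E μ' hh
    have hrp : RP (rho (Term.node n m src tgt ch p p).stp tr)
        (fun c => id ((Term.node n m src tgt ch p p).pt c)) E tr (fun c => μ' (pv c)) := by
      intro c c' s s' hr
      have e1 : (Term.node n m src tgt ch p p).pt c = (Term.node n m src tgt ch p p).pt c' := by
        simp [Term.pt]
      have e2 : pv c = pv c' := by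
        cases c <;> cases c' <;> first | rfl | exact hpv | exact hpv.symm
      simp only [← e1] at hr
      simp only [← e2]
      exact g1 c s s' hr
    obtain ⟨ν, hν, hν2⟩ := g2 hrp
    refine ⟨ν, ?_, fun j => ?_⟩
    · intro a b' s s' hr
      rw [← hl1 a, ← hl1 b', ← h4 _ hsym] at hr
      exact hν (Sum.inl a) (Sum.inl b') s s' hr
    · obtain ⟨v, hv⟩ := hl2 (o j) ⟨j, rfl⟩
      rw [hν2 (o j) v hv]
      exact hz j

end Pool.Agent.H56.SW
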