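import Pool.Agent.H76.SW.T

/-!
Wrapping in terms of width one: module W1.
-/

namespace Pool.Agent.H56.SW

open Relation Pool.Agent.H76.SW

section

variable {A P Q : Type} (gs : P → Option (A × Bool) → P → Prop) (tr : Q → A × Bool → Q → Prop)

theorem rho_trans {x y z : P × Q} (h : rho gs tr x y) (h' : rho gs tr y z) : rho gs tr x z :=
  ReflTransGen.trans h h'

theorem rho_refl (x : P × Q) : rho gs tr x x := ReflTransGen.refl

/-- composition of separations -/
theorem Sep.comp {I J : Type} {c : I → P} {d : J → P} {x y : P}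
    (h : ∀ b, Sep gs tr c x (d b)) (h' : Sep gs tr d x y) : Sep gs tr c x y := by
  refine ⟨fun s s' hr => ?_, fun s s' hr => ?_⟩
  · obtain ⟨b, s1, h1, h2⟩ := h'.1 s s' hr
    obtain ⟨a, s2, h3, h4⟩ := (h b).1 s s1 h1
    exact ⟨a, s2, h3, rho_trans gs tr h4 h2⟩
  · obtain ⟨b, s1, h1, h2⟩ := h'.2 s s' hr
    obtain ⟨a, s2, h3, h4⟩ := (h b).2 s1 s' h2
    exact ⟨a, s2, rho_trans gs tr h1 h3, h4⟩

theorem Sep.self {I : Type} (c : I → P) (x : P) (i : I) : Sep gs tr c x (c i) :=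
  ⟨fun _ s' hr => ⟨i, s', hr, rho_refl gs tr _⟩, fun s _ hr => ⟨i, s, rho_refl gs tr _, hr⟩⟩

/-- the generation hypothesis -/
def Gn (N : ℕ) (pr : ℕ → Bool → P) (σ : ℕ → Bool) : Prop :=
  ∀ (u v : ℕ) (c c' : Bool) (s s' : Q), (u = 0 ∨ u = N) → (v = 0 ∨ v = N) →
    rho gs tr (pr u c, s) (pr v c', s') →
    ReflTransGen (LS (rho gs tr) N pr σ) ((u, c), s) ((v, c'), s')

/-- the alternative in the claim -/
def Alt {L : Type} (pos : L → P) (pp pp' : Bool → P) : Prop :=
  (∃ c0 : P, (∀ a, Sep gs tr pp' (pos a) c0) ∧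
    ∀ a c, Sep gs tr (fun _ : Unit => c0) (pos a) (pp c)) ∨
  ∃ (N : ℕ) (pr : ℕ → Bool → P) (σ : ℕ → Bool), pr 0 = pp ∧ pr N = pp' ∧ Gn gs tr N pr σ

/-- shift of a ladder -/
def prS (pp : Bool → P) (pr : ℕ → Bool → P) : ℕ → Bool → P
  | 0 => pp
  | n + 1 => pr n

def sgS (b : Bool) (σ : ℕ → Bool) : ℕ → Bool
  | 0 => b
  | n + 1 => σ n

theorem map1 {ρ : P × Q → P × Q → Prop} {N : ℕ} {pp : Bool → P} {pr pr1 : ℕ → Bool → P}
    {σ σ1 : ℕ → Bool} (h0 : ∀ c, pr1 0 c = pp c) (h1 : ∀ c, pr1 1 c = pr 0 c)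
    {x y : (ℕ × Bool) × Q} (hx : x.1.1 ≤ 1) (h : ReflTransGen (LS ρ 1 pr1 σ1) x y) :
    y.1.1 ≤ 1 ∧ ReflTransGen (LS ρ (N + 1) (prS pp pr) (sgS (σ1 0) σ)) x y := by
  have hpr : ∀ u c, u ≤ 1 → pr1 u c = prS pp pr u c := by
    intro u c hu
    rcases u with _ | _ | u
    · exact h0 c
    · exact h1 c
    · omega
  induction h with
  | refl => exact ⟨hx, ReflTransGen.refl⟩
  | @tail b c _ hbc ih =>
    obtain ⟨ih1, ih2⟩ := ih
    obtain ⟨hr, hcase⟩ := hbc
    have hc : c.1.1 ≤ 1 := by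
      rcases hcase with h | h | h <;> omega
    refine ⟨hc, ih2.tail ?_⟩
    refine ⟨?_, ?_⟩
    · rw [← hpr _ _ ih1, ← hpr _ _ hc]
      exact hr
    · rcases hcase with h | ⟨h2, h3, h4⟩ | ⟨h2, h3, h4⟩
      · exact Or.inl h
      · refine Or.inr (Or.inl ⟨h2, by omega, ?_⟩)
        have hb : b.1.1 = 0 := by omega
        rw [h4, hb]
        rfl
      · refine Or.inr (Or.inr ⟨h2, by omega, ?_⟩)
        have hb : c.1.1 = 0 := by omega
        rw [h4, hb]
        rfl

theorem map2 {ρ : P × Q → P × Q → Prop} {N : ℕ} {pp : Bool → P} {pr : ℕ → Bool → P}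
    {σ : ℕ → Bool} {b : Bool} {u v : ℕ} {c c' : Bool} {s s' : Q}
    (h : ReflTransGen (LS ρ N pr σ) ((u, c), s) ((v, c'), s')) :
    ReflTransGen (LS ρ (N + 1) (prS pp pr) (sgS b σ)) ((u + 1, c), s) ((v + 1, c'), s') := by
  refine ReflTransGen.lift (fun x : (ℕ × Bool) × Q => ((x.1.1 + 1, x.1.2), x.2)) ?_ _ _ h
  rintro ⟨⟨u, c⟩, s⟩ ⟨⟨v, d⟩, t⟩ ⟨h1, h2⟩
  refine ⟨h1, ?_⟩
  simp only at h2 ⊢
  rcases h2 with h | ⟨h3, h4, h5⟩ | ⟨h3, h4, h5⟩
  · exact Or.inl (by omega)
  · exact Or.inr (Or.inl ⟨by omega, by omega, h5⟩)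
  · exact Or.inr (Or.inr ⟨by omega, by omega, h5⟩)

end

theorem claim (h1 : U_s4_child) (h2 : U_s9_exit) (h8 : U_g4_level) {A P Q : Type}
    (gs : P → Option (A × Bool) → P → Prop) (hs : Symm gs) (tr : Q → A × Bool → Q → Prop)
    (L : Type) [Nonempty L] (T : Term A) : T.Width 1 → ∀ (ι : T.Pos → P), Occ gs T ι →
    ∀ lab : L → T.Pos, ∃ (T' : Term A) (ι' : T'.Pos → P) (lab' : L → T'.Pos), T'.Width 1 ∧
      Occ gs T' ι' ∧ (∀ a, ι' (lab' a) = ι (lab a)) ∧ Branch T' lab' ∧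
      Set.range ι' ⊆ Set.range ι ∧
      (∀ a c, Sep gs tr (fun c => ι' (T'.pt c)) (ι (lab a)) (ι (T.pt c))) ∧
      Alt gs tr (fun a => ι (lab a)) (fun c => ι (T.pt c)) (fun c => ι' (T'.pt c)) := by
  have base : ∀ (T : Term A), T.Width 1 → ∀ (ι : T.Pos → P), Occ gs T ι → ∀ lab : L → T.Pos,
      Branch T lab → ∃ (T' : Term A) (ι' : T'.Pos → P) (lab' : L → T'.Pos), T'.Width 1 ∧
      Occ gs T' ι' ∧ (∀ a, ι' (lab' a) = ι (lab a)) ∧ Branch T' lab' ∧
      Set.range ι' ⊆ Set.range ι ∧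
      (∀ a c, Sep gs tr (fun c => ι' (T'.pt c)) (ι (lab a)) (ι (T.pt c))) ∧
      Alt gs tr (fun a => ι (lab a)) (fun c => ι (T.pt c)) (fun c => ι' (T'.pt c)) := by
    intro T hT ι ho lab hb
    refine ⟨T, ι, lab, hT, ho, fun _ => rfl, hb, subset_rfl,
      fun a c => Sep.self gs tr (fun c => ι (T.pt c)) (ι (lab a)) c, Or.inr ?_⟩
    refine ⟨0, fun _ c => ι (T.pt c), fun _ => false, rfl, rfl, ?_⟩
    intro u v c c' s s' hu hv hr
    have hu' : u = 0 := by omega
    have hv' : v = 0 := by omega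
    subst hu'
    subst hv'
    exact ReflTransGen.single ⟨hr, Or.inl rfl⟩
  induction T with
  | edge a =>
    intro hT ι ho lab
    exact base _ hT ι ho lab trivial
  | node n m src tgt ch p q ih =>
    intro hT ι ho lab
    by_cases hb : Branch (Term.node n m src tgt ch p q) lab
    · exact base _ hT ι ho lab hb
    · simp only [Branch] at hb
      push Not at hb
      obtain ⟨i, hi⟩ := hb
      choose labi hlab using hi
      have hoi := h1 gs ho i
      obtain ⟨T', ι', lab', hw', ho', he', hb', hrg, hsep, halt⟩ :=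
        ih i (hT.2 i) (fun x => ι (Sum.inr ⟨i, x⟩)) hoi labi
      have hpos : ∀ a, ι (Sum.inr ⟨i, labi a⟩) = ι (lab a) := fun a => by rw [hlab a]
      simp only [hpos] at he' hsep halt
      have hout : ∀ c, ι ((Term.node n m src tgt ch p q).pt c) ∉
          Set.range (fun x => ι (Sum.inr ⟨i, x⟩)) := by
        rintro c ⟨x, hx⟩
        have := ho.inj hx
        simp [Term.pt] at this
      have hex : ∀ a c, Sep gs tr (fun c => ι (Sum.inr ⟨i, (ch i).pt c⟩)) (ι (lab a))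
          (ι ((Term.node n m src tgt ch p q).pt c)) := by
        intro a c
        refine h2 gs hs tr (ch i) _ hoi _ _ ?_ (hout c)
        exact ⟨labi a, hpos a⟩
      refine ⟨T', ι', lab', hw', ho', he', hb', ?_, ?_, ?_⟩
      · rintro _ ⟨x, rfl⟩
        obtain ⟨y, hy⟩ := hrg ⟨x, rfl⟩
        exact ⟨_, hy⟩
      · intro a c
        exact Sep.comp gs tr (hsep a) (hex a c)
      · rcases h8 gs hs tr hT.1 ho i with ⟨c, hc⟩ | ⟨pr1, σ1, hp0, hp1, hgen1⟩
        · refine Or.inl ⟨_, fun a => hsep a c, fun a c' => ?_⟩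
          have := hc (labi a) c'
          rw [hpos] at this
          exact this
        · rcases halt with ⟨c0, hc1, hc2⟩ | ⟨N, pr, σ, hq0, hqN, hgen⟩
          · exact Or.inl ⟨c0, hc1, fun a c => Sep.comp gs tr (hc2 a) (hex a c)⟩
          · refine Or.inr ⟨N + 1, prS (fun c => ι ((Term.node n m src tgt ch p q).pt c)) pr,
              sgS (σ1 0) σ, rfl, hqN, ?_⟩
            have hp1' : ∀ c, pr1 1 c = pr 0 c := by
              intro c
              rw [hp1, hq0]
            have hexit : ∀ c c', Sep gs tr (fun c => ι (Sum.inr ⟨i, (ch i).pt c⟩)) (pr N c')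
                (ι ((Term.node n m src tgt ch p q).pt c)) := by
              intro c c'
              refine h2 gs hs tr (ch i) _ hoi _ _ ?_ (hout c)
              rw [hqN]
              exact hrg ⟨_, rfl⟩
            intro u v c c' s s' hu hv hr
            rcases hu with rfl | rfl
            · rcases hv with rfl | rfl
              · exact ReflTransGen.single ⟨hr, Or.inl rfl⟩
              · obtain ⟨a, s1, h3, h4⟩ := (hexit c c').2 s s' hr
                have g1 : rho gs tr (pr1 0 c, s) (pr1 1 a, s1) := by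
                  rw [hp0, hp1]
                  exact h3
                have g2 : rho gs tr (pr 0 a, s1) (pr N c', s') := by
                  rw [hq0]
                  exact h4
                refine (map1 hp0 hp1' (Nat.zero_le _)
                  (hgen1 0 1 c a s s1 (Nat.zero_le _) le_rfl g1)).2.trans ?_
                exact map2 (hgen 0 N a c' s1 s' (Or.inl rfl) (Or.inr rfl) g2)
            · rcases hv with rfl | rfl
              · obtain ⟨a, s1, h3, h4⟩ := (hexit c' c).1 s s' hr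
                have g1 : rho gs tr (pr1 1 a, s1) (pr1 0 c', s') := by
                  rw [hp0, hp1]
                  exact h4
                have g2 : rho gs tr (pr N c, s) (pr 0 a, s1) := by
                  rw [hq0]
                  exact h3
                refine ReflTransGen.trans
                  (map2 (hgen N 0 c a s s1 (Or.inr rfl) (Or.inl rfl) g2)) ?_
                exact (map1 hp0 hp1' (x := ((1, a), s1)) (le_refl _)
                  (hgen1 1 0 a c' s1 s' le_rfl (Nat.zero_le _) g1)).2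
              · exact ReflTransGen.single ⟨hr, Or.inl rfl⟩

theorem pf_W1 (h1 : U_s4_child) (h2 : U_s9_exit) (h4 : U_a0_mono)
    (h5 : U_g1_loop) (h6 : U_g2_ladder) (h7 : U_g3_realise) (h8 : U_g4_level) : U_w1_wrap := by
  intro A P Q _ gs hs tr L _ _ T hT ι ho lab
  obtain ⟨T', ι', lab', hw', ho', he', hb', hrg, hsep, halt⟩ :=
    claim h1 h2 h8 gs hs tr L T hT ι ho lab
  refine ⟨T', ι', lab', hw', ho', he', hb', ?_⟩
  intro bd nn δ' hδ
  rcases halt with ⟨c0, hc1, hc2⟩ | ⟨N, pr, σ, hq0, hqN, hgen⟩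
  · obtain ⟨δ, hδ2⟩ := h5 1 le_rfl gs hs tr (fun a => ι (lab a)) (fun c => ι (T.pt c))
      (fun c => ι' (T'.pt c)) c0 hc1 hc2 bd nn δ' hδ
    refine ⟨δ, h4 gs tr 1 _ _ _ _ ?_ ?_ _ _ δ hδ2⟩
    · unfold WW
      omega
    · unfold WN
      omega
  · obtain ⟨L', pr', σ', hL', hp0, hpL, hgen'⟩ := h6 (rho gs tr)
      (fun x y z => rho_trans gs tr) (rho_refl gs tr) N pr σ hgen
    have hδ' : Good gs tr 1 bd nn (fun a => ι (lab a)) (pr' L') δ' := by
      rw [hpL, hqN]
      exact hδ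
    have hsep' : ∀ a c, Sep gs tr (pr' L') (ι (lab a)) (pr' 0 c) := by
      intro a c
      rw [hpL, hqN, hp0, hq0]
      exact hsep a c
    obtain ⟨δ, hδ2⟩ := h7 1 le_rfl gs hs tr (fun a => ι (lab a)) L' pr' σ' hgen' hsep' bd nn δ' hδ'
    rw [hp0, hq0] at hδ2
    refine ⟨δ, h4 gs tr 1 _ _ _ _ ?_ ?_ _ _ δ hδ2⟩
    · have := Nat.mul_le_mul_right (1 + bsz 4 (Fintype.card Q) 1) hL'
      unfold WW
      omega
    · unfold WN
      omega

end Pool.Agent.H56.SW
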